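import Pool.Agent.H11.LGR.Targets

/-!
# Bounded exponent for linear groups over algebraically closed fields (row FAC)
-/

set_option autoImplicit false

open MvPolynomial Pool.Agent.H87.CLG Pool.Agent.H11.LGR

namespace Pool.Agent.H60.LGR

theorem pf_FAC (hCMP : T_CMP) (hSCH : T_SCH) (hUNP : T_UNP) : T_FAC := by
  intro n ν hν
  obtain ⟨B, hB, hC⟩ := hCMP n ν hν
  have hc : 0 < ν (2 * B + 1) := hν _
  refine ⟨B.factorial * ((ν (2 * B + 1)).factorial) ^ n,
    Nat.mul_pos (Nat.factorial_pos _) (Nat.pow_pos (Nat.factorial_pos _)), ?_⟩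
  intro F W Γ _ _ _ _ _ _ X ρ hX hL hn γ
  obtain ⟨U, hUN, hU0, hUB, hUU⟩ := hC F W Γ X ρ hX hL hn
  have h1 : γ ^ B.factorial ∈ U := by
    have hd : U.index ∣ B.factorial := Nat.dvd_factorial (Nat.pos_of_ne_zero hU0) hUB
    obtain ⟨k, hk⟩ := hd
    rw [hk, pow_mul]
    exact U.pow_mem (Subgroup.pow_index_mem U γ) k
  rw [pow_mul]
  generalize γ ^ B.factorial = u at h1
  by_cases hF : ((ν (2 * B + 1) : ℕ) : F) = 0
  · obtain ⟨p, hp⟩ := CharP.exists F
    have hpd : p ∣ ν (2 * B + 1) := (CharP.cast_eq_zero_iff F p _).1 hF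
    have hp0 : p ≠ 0 := by
      rintro rfl
      rw [zero_dvd_iff] at hpd
      omega
    have hpp : p.Prime := (CharP.char_is_prime_or_zero F p).resolve_right hp0
    have h2 := (hUNP F (Module.End F W) (ρ u) _ (hUU u h1)).2 p hpp hp
    have h3 : p ^ Module.finrank F W ∣ (ν (2 * B + 1)).factorial ^ n :=
      (pow_dvd_pow_of_dvd (Nat.dvd_factorial hpp.pos (Nat.le_of_dvd hc hpd)) _).trans
        (pow_dvd_pow _ hn)
    obtain ⟨k, hk⟩ := h3
    rw [hk, map_pow, pow_mul, h2, one_pow]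
  · have h2 : U ≤ ρ.ker := by
      refine (hSCH Γ X U B hX hU0 hUB).trans ((Subgroup.closure_le _).2 ?_)
      rintro s ⟨hs, l, hl, hlen, rfl⟩
      rw [SetLike.mem_coe, MonoidHom.mem_ker]
      refine (hUNP F (Module.End F W) (ρ l.prod) _ (hUU _ hs)).1 (ν (2 * B + 1)) hF ?_
      have h4 := hL l hl
      rwa [hlen] at h4
    have h3 : ρ u = 1 := (MonoidHom.mem_ker).1 (h2 h1)
    rw [map_pow, h3, one_pow]

end Pool.Agent.H60.LGR
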