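import Pool.Agent.H11.LGR.Targets

/-!
# Two quotients with finite exponent (row TWO)
-/

set_option autoImplicit false

open MvPolynomial Pool.Agent.H87.CLG Pool.Agent.H11.LGR

namespace Pool.Agent.H60.LGR

theorem pf_TWO : T_TWO := by
  intro R M S Γ _ _ _ _ _ n A L J hS h1 h2 h3
  obtain ⟨e1, he1, h1⟩ := h1
  obtain ⟨e2, he2, h2⟩ := h2
  have hE : 0 < e1 * e2 := Nat.mul_pos he1 he2
  generalize hEE : e1 * e2 = E at hE
  have m1 : ∀ (γ : Γ) (m : M), A.ρ (γ ^ E) m - m ∈ L ⊔ J • (⊤ : Submodule R M) := by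
    intro γ m
    have := h1 (γ ^ e2) m
    rwa [← pow_mul, mul_comm e2 e1, hEE] at this
  have m2 : ∀ (γ : Γ) (m : M), A.ρ (γ ^ E) m - m ∈ col L J := by
    intro γ m
    have := h2 (γ ^ e1) m
    rwa [← pow_mul, hEE] at this
  have m3 : ∀ (γ : Γ) (m : M), A.ρ (γ ^ E) (A.ρ (γ ^ E) m - m) - (A.ρ (γ ^ E) m - m) ∈ L := by
    intro γ
    have h4 : L ⊔ J • (⊤ : Submodule R M) ≤ L.comap (A.ρ (γ ^ E) - 1) := by
      refine sup_le ?_ ?_
      · intro m hm
        rw [Submodule.mem_comap, LinearMap.sub_apply, Module.End.one_apply]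
        exact L.sub_mem (hS.r _ m hm) hm
      · rw [Submodule.smul_le]
        intro r hr m _
        rw [Submodule.mem_comap, map_smul, LinearMap.sub_apply, Module.End.one_apply]
        exact m2 γ m r hr
    intro m
    have h5 := h4 (m1 γ m)
    rwa [Submodule.mem_comap, LinearMap.sub_apply, Module.End.one_apply] at h5
  have m4 : ∀ (γ : Γ) (k : ℕ) (m : M),
      A.ρ (γ ^ (E * k)) m - m - (k : R) • (A.ρ (γ ^ E) m - m) ∈ L := by
    intro γ k
    induction k with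
    | zero =>
      intro m
      have : A.ρ (γ ^ (E * 0)) m - m - ((0 : ℕ) : R) • (A.ρ (γ ^ E) m - m) = 0 := by
        rw [Nat.mul_zero, pow_zero, map_one, Module.End.one_apply, Nat.cast_zero, zero_smul,
          sub_self, sub_zero]
      rw [this]
      exact L.zero_mem
    | succ k ih =>
      intro m
      have a1 := ih m
      have a2 := ih (A.ρ (γ ^ E) m - m)
      have a3 : (k : R) • (A.ρ (γ ^ E) (A.ρ (γ ^ E) m - m) - (A.ρ (γ ^ E) m - m)) ∈ L :=
        L.smul_mem _ (m3 γ m)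
      have a4 := L.add_mem (L.add_mem a1 a2) a3
      have a5 : A.ρ (γ ^ (E * (k + 1))) m = A.ρ (γ ^ (E * k)) (A.ρ (γ ^ E) m) := by
        rw [Nat.mul_add, Nat.mul_one, pow_add, map_mul, Module.End.mul_apply]
      have a6 : A.ρ (γ ^ (E * (k + 1))) m - m - ((k + 1 : ℕ) : R) • (A.ρ (γ ^ E) m - m) =
          (A.ρ (γ ^ (E * k)) m - m - (k : R) • (A.ρ (γ ^ E) m - m) +
            (A.ρ (γ ^ (E * k)) (A.ρ (γ ^ E) m - m) - (A.ρ (γ ^ E) m - m) -
              (k : R) • (A.ρ (γ ^ E) (A.ρ (γ ^ E) m - m) - (A.ρ (γ ^ E) m - m)))) +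
            (k : R) • (A.ρ (γ ^ E) (A.ρ (γ ^ E) m - m) - (A.ρ (γ ^ E) m - m)) := by
        rw [a5, Nat.cast_succ, add_smul, one_smul, map_sub (A.ρ (γ ^ (E * k)))]
        abel
      rw [a6]
      exact a4
  rcases h3 with ⟨p, hp, h3⟩ | ⟨hTF, hTor⟩
  · refine ⟨E * p, Nat.mul_pos hE hp, fun γ m => ?_⟩
    have a1 := L.add_mem (m4 γ p m) (h3 _ (m2 γ m))
    rwa [sub_add_cancel] at a1
  · refine ⟨E, hE, fun γ m => ?_⟩
    obtain ⟨k, hk, hk1⟩ := hTor γ
    have a1 := m4 γ k m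
    have a2 : A.ρ (γ ^ (E * k)) = 1 := by
      rw [mul_comm, pow_mul, map_pow, hk1, one_pow]
    rw [a2, Module.End.one_apply, sub_self, zero_sub] at a1
    exact hTF k _ hk (by simpa using L.neg_mem a1)

end Pool.Agent.H60.LGR
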